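import Mathlib

set_option autoImplicit false

namespace Pool.Agent.Results.MP_2c723a_al.Counterexample

open Module

/-- The tridiagonal relation `[A, A²B - βABA + BA² - γ(AB + BA) - ϱB] = 0`. -/
def Rel {K V : Type} [Field K] [AddCommGroup V] [Module K V] (β γ ϱ : K) (A B : End K V) : Prop :=
  ⁅A, A ^ 2 * B - β • (A * B * A) + B * A ^ 2 - γ • (A * B + B * A) - ϱ • B⁆ = 0

/-- The eigenspaces of `A` admit an ordering `V₀, …, V_d` with `B Vᵢ ⊆ Vᵢ₋₁ + Vᵢ + Vᵢ₊₁`. -/
def Tri {K V : Type} [Field K] [AddCommGroup V] [Module K V] (A B : End K V) : Prop :=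
  ∃ (d : ℕ) (θ : Fin (d + 1) → K), Function.Injective θ ∧
    (∀ μ, A.HasEigenvalue μ ↔ μ ∈ Set.range θ) ∧
    ∀ i, ∀ v ∈ A.eigenspace (θ i),
      B v ∈ ⨆ (j : Fin (d + 1)) (_ : j.1 ≤ i.1 + 1 ∧ i.1 ≤ j.1 + 1), A.eigenspace (θ j)

def a : Fin 3 → ℚ := ![-1, 0, 1]

noncomputable def A : End ℚ (Fin 3 → ℚ) := Matrix.toLin' (Matrix.diagonal a)

noncomputable def B : End ℚ (Fin 3 → ℚ) := Matrix.toLin' fun _ _ => 1

lemma A_apply (v : Fin 3 → ℚ) (i : Fin 3) : A v i = a i * v i := by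
  simp [A, Matrix.mulVec_diagonal]

lemma B_apply (v : Fin 3 → ℚ) (i : Fin 3) : B v i = v 0 + v 1 + v 2 := by
  simp [B, Matrix.mulVec, dotProduct, Fin.sum_univ_three]

lemma single_mem (k : Fin 3) : (Pi.single k 1 : Fin 3 → ℚ) ∈ A.eigenspace (a k) := by
  rw [End.mem_eigenspace_iff]
  ext i
  by_cases h : i = k <;> simp [A_apply, h]

lemma sum_single (k : Fin 3) : B (Pi.single k 1) = 1 := by
  ext i
  fin_cases k <;> simp [B_apply]

/-- An irreducible module of a tridiagonal algebra on which `A`, `A*` are diagonalizable and do not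
form a tridiagonal pair, and `A*` has eigenspaces of different dimensions. -/
theorem result : ∃ (β γ γ' ϱ ϱ' : ℚ) (A B : End ℚ (Fin 3 → ℚ)),
    Rel β γ ϱ A B ∧ Rel β γ' ϱ' B A ∧
    (∀ W : Submodule ℚ (Fin 3 → ℚ), (∀ v ∈ W, A v ∈ W ∧ B v ∈ W) → W = ⊥ ∨ W = ⊤) ∧
    ⨆ μ, A.eigenspace μ = ⊤ ∧ ⨆ μ, B.eigenspace μ = ⊤ ∧ ¬ Tri A B ∧
    ∃ μ ν, B.HasEigenvalue μ ∧ B.HasEigenvalue ν ∧
      finrank ℚ (B.eigenspace μ) ≠ finrank ℚ (B.eigenspace ν) := by
  have one_mem : (1 : Fin 3 → ℚ) ∈ B.eigenspace 3 := by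
    rw [End.mem_eigenspace_iff]
    ext i
    simp [B_apply]
    norm_num
  have dec : ∀ v : Fin 3 → ℚ,
      v = v 0 • Pi.single 0 1 + v 1 • Pi.single 1 1 + v 2 • Pi.single 2 1 := fun v => by
    ext i
    fin_cases i <;> simp
  refine ⟨-1, 0, 3, 1, 0, A, B, ?_, ?_, ?_, ?_, ?_, ?_, 3, 0, ?_, ?_, ?_⟩
  · refine LinearMap.ext fun v => funext fun i => ?_
    fin_cases i <;> simp [Ring.lie_def, sq, A_apply, B_apply, a] <;> ring
  · refine LinearMap.ext fun v => funext fun i => ?_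
    fin_cases i <;> simp [Ring.lie_def, sq, A_apply, B_apply, a] <;> ring
  · intro W hW
    have key : ∀ v ∈ W, ∀ k, v k • (Pi.single k 1 : Fin 3 → ℚ) ∈ W := by
      intro v hv k
      have h1 := (hW v hv).1
      have h2 := (hW _ h1).1
      fin_cases k
      · convert W.smul_mem (1 / 2) (W.sub_mem h2 h1) using 1
        ext i
        fin_cases i <;> simp [A_apply, a]
        ring
      · convert W.sub_mem hv h2 using 1
        ext i
        fin_cases i <;> simp [A_apply, a]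
      · convert W.smul_mem (1 / 2) (W.add_mem h2 h1) using 1
        ext i
        fin_cases i <;> simp [A_apply, a]
        ring
    refine or_iff_not_imp_left.mpr fun h => eq_top_iff.mpr fun w _ => ?_
    obtain ⟨v, hv, h0⟩ := (Submodule.ne_bot_iff W).mp h
    obtain ⟨k, hk⟩ := Function.ne_iff.mp h0
    have h1 := (hW _ ((W.smul_mem_iff hk).mp (key v hv k))).2
    rw [sum_single] at h1
    have h2 : ∀ k, (Pi.single k 1 : Fin 3 → ℚ) ∈ W := fun k => by simpa using key _ h1 k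
    rw [dec w]
    exact W.add_mem (W.add_mem (W.smul_mem _ (h2 _)) (W.smul_mem _ (h2 _))) (W.smul_mem _ (h2 _))
  · refine eq_top_iff.mpr fun w _ => ?_
    have h2 : ∀ k, (Pi.single k 1 : Fin 3 → ℚ) ∈ ⨆ μ, A.eigenspace μ := fun k =>
      Submodule.mem_iSup_of_mem _ (single_mem k)
    rw [dec w]
    exact add_mem (add_mem (Submodule.smul_mem _ _ (h2 _)) (Submodule.smul_mem _ _ (h2 _)))
      (Submodule.smul_mem _ _ (h2 _))
  · refine eq_top_iff.mpr fun w _ => ?_
    rw [← sub_add_cancel w (((w 0 + w 1 + w 2) / 3) • 1)]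
    refine add_mem (Submodule.mem_iSup_of_mem 0 ?_)
      (Submodule.mem_iSup_of_mem 3 (Submodule.smul_mem _ _ one_mem))
    rw [End.mem_eigenspace_iff]
    ext i
    simp [B_apply]
    ring
  · rintro ⟨d, θ, -, h1, h2⟩
    obtain ⟨v, hv, h0⟩ := ((h1 (θ 0)).mpr ⟨0, rfl⟩).exists_hasEigenvector
    obtain ⟨k, hk⟩ := Function.ne_iff.mp h0
    have h3 : θ 0 = a k := by
      have := congrFun (End.mem_eigenspace_iff.mp hv) k
      rw [A_apply] at this
      exact (mul_right_cancel₀ hk this).symm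
    have h4 := h2 0 _ (h3 ▸ single_mem k)
    rw [sum_single] at h4
    have h5 : ∀ m, ∃ j : Fin (d + 1), j.1 ≤ 1 ∧ θ j = a m := by
      intro m
      by_contra! h
      have : (1 : Fin 3 → ℚ) ∈ LinearMap.ker (LinearMap.proj (R := ℚ) (φ := fun _ => ℚ) m) := by
        refine (iSup₂_le fun j hj v hv => ?_ : _ ≤ LinearMap.ker _) h4
        have := congrFun (End.mem_eigenspace_iff.mp hv) m
        rw [A_apply] at this
        by_contra h6
        exact h j hj.1 (mul_right_cancel₀ h6 this).symm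
      simp at this
    obtain ⟨j0, a0, b0⟩ := h5 0
    obtain ⟨j1, a1, b1⟩ := h5 1
    obtain ⟨j2, a2, b2⟩ := h5 2
    have : j0 = j1 ∨ j0 = j2 ∨ j1 = j2 := by simp only [Fin.ext_iff]; omega
    rcases this with rfl | rfl | rfl <;> simp [a] at b0 b1 b2 <;> linarith
  · exact End.hasEigenvalue_of_hasEigenvector ⟨one_mem, one_ne_zero⟩
  · refine End.hasEigenvalue_of_hasEigenvector (x := ![1, -1, 0]) ⟨?_, by simp⟩
    rw [End.mem_eigenspace_iff]
    ext i
    simp [B_apply]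
  · have h1 : B.eigenspace 3 = ℚ ∙ 1 := by
      refine le_antisymm (fun v hv => Submodule.mem_span_singleton.mpr ⟨(v 0 + v 1 + v 2) / 3, ?_⟩)
        ((Submodule.span_singleton_le_iff_mem _ _).mpr one_mem)
      ext i
      have := congrFun (End.mem_eigenspace_iff.mp hv) i
      rw [B_apply] at this
      simp [this]
    have h2 : LinearMap.range B = ℚ ∙ 1 := by
      refine le_antisymm ?_ ((Submodule.span_singleton_le_iff_mem _ _).mpr ⟨_, sum_single 0⟩)
      rintro _ ⟨v, rfl⟩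
      exact Submodule.mem_span_singleton.mpr ⟨v 0 + v 1 + v 2, by ext i; simp [B_apply]⟩
    have h3 := B.finrank_range_add_finrank_ker
    rw [h2, finrank_span_singleton one_ne_zero, finrank_fin_fun] at h3
    rw [h1, finrank_span_singleton one_ne_zero, End.eigenspace_zero]
    omega

end Pool.Agent.Results.MP_2c723a_al.Counterexample
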